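import Pool.Agent.Y377.IR.Num

/-!
# Lang's conjecture for points given by iterated recurrences

Let `H` be a group. We consider the rings of functions on `H` (`FTow`) which are obtained from the
ring of the constants `ℂ` in finitely many steps of the following kind: the entries of an invertible
matrix `X(h)` of functions and of its inverse are added to the ring `R`, where for all `g` in `H` the
entries of `X(gh) X(h)⁻¹`, as functions of `h`, belong to `R`. For example the matrix coefficients of
the representations of `H` belong to such rings. For the integers these functions are given by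
iterated recurrences (`IterRec`): the set of these sequences contains the constants and is closed
under sums, products and solutions of systems `y(n + 1) = A(n) y(n)` such that the entries of `A` and
of `A⁻¹` belong to the set. So the coefficients of the recurrences can be any functions which have
been obtained before, for example `2 ^ n`, then `2 ^ (n ^ 2)` and the continuants with the partial
denominators `2 ^ n + n`, and so on. A family of points `P(h)`, `h ∈ H`, is given by iterated
recurrences (`IteratedOn`) if it has homogeneous coordinates in such a ring.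

Let `X` be a complex projective variety, for example the variety given by a projective variety over
the rational numbers and its families of rational points.

(1) If `X` contains a Zariski-dense family of points given by iterated recurrences then every image
of `X` of positive dimension is covered by rational curves, has no pluricanonical forms and is not of
general type.

(2) If `X` is of positive dimension and has a nonzero pluricanonical form, for instance if `X` is of
general type, then no family of points of `X` given by iterated recurrences is Zariski-dense.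

(3) For every projective algebraic set, every family of its points given by iterated recurrences has
only finitely many members outside the Zariski closure of the union of the rational curves.

(4) For sequences of points of `X`, indexed by the integers, with homogeneous coordinates given by
iterated recurrences the same holds.

The parts of the proof are due to helpers 312, 657, 921, 987, 523, 737, 495, 68, 401, 529 and to the
authors of the files on iterated linear differential equations (`Y377/IL`).
-/

set_option autoImplicit false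

namespace Pool.Agent.Results.MP_2ae8fe_ag.IteratedNotDense

open MvPolynomial Pool.Agent.Y377.IR
open scoped LinearAlgebra.Projectivization
open Pool.Agent.TH143.EL (Rep InV)
open Pool.Agent.TH143.GT (Covered FunField Pluricanonical)
open Pool.Agent.W602.GT (IsForm GeneralType)
open Pool.Agent.Y377.IL (covered_of_top pos_of_covered form_of_gt)

variable {N : ℕ}

/-- some form that does not belong to the ideal `p` vanishes at all points of the family -/
def NotDense {H : Type} (p : Ideal (MvPolynomial (Fin (N + 1)) ℂ))
    (P : H → ℙ ℂ (Fin (N + 1) → ℂ)) : Prop :=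
  ∃ G : MvPolynomial (Fin (N + 1)) ℂ, IsForm G ∧ G ∉ p ∧ ∀ h, eval (P h).rep G = 0

/-- The varieties with the function field `E` are covered by rational curves, and all their
pluricanonical forms vanish. -/
def Uniruled (E : Type) [Field E] [Algebra ℂ E] : Prop :=
  Covered E ∧ ∀ v : ℕ, 0 < v → Algebra.trdeg ℂ E = v → ∀ n : ℕ, 0 < n →
    ∀ ω : (Fin v → Derivation ℂ E E) → E, Pluricanonical v n ω → ω = 0

/-- The sequence of points has homogeneous coordinates given by iterated recurrences. -/
def IteratedSeq (P : ℤ → ℙ ℂ (Fin (N + 1) → ℂ)) : Prop :=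
  ∃ f : Fin (N + 1) → ℤ → ℂ, (∀ j, IterRec (f j)) ∧ ∀ n, Rep (P n) fun j => f j n

theorem dense_of_not {H : Type} {p : Ideal (MvPolynomial (Fin (N + 1)) ℂ)}
    {P : H → ℙ ℂ (Fin (N + 1) → ℂ)} (h : ¬ NotDense p P) :
    ∀ G : MvPolynomial (Fin (N + 1)) ℂ, IsForm G → (∀ h, eval (P h).rep G = 0) → G ∈ p := by
  intro G hG h0
  by_contra hne
  exact h ⟨G, hG, hne, h0⟩

theorem images {p : Ideal (MvPolynomial (Fin (N + 1)) ℂ)} {K : Type} [Field K] [Algebra ℂ K]
    {w : ℕ} {y : Fin (N + 1) → K} (hy : FunField p 1 K w y) {H : Type} [Group H]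
    {P : H → ℙ ℂ (Fin (N + 1) → ℂ)} (hP : IteratedOn P) (hX : ∀ h, InV p (P h))
    (hd : ¬ NotDense p P) (E : IntermediateField ℂ K) (v : ℕ) (hv : Algebra.trdeg ℂ E = v)
    (h0 : 0 < v) : Uniruled E ∧ ¬ GeneralType ℂ E v := by
  obtain ⟨⟨h1, h2⟩, h3⟩ := dense_not_gt hy hP hX (dense_of_not hd) E hv h0
  refine ⟨⟨h1, fun v' _ hv' => ?_⟩, h3⟩
  have h4 : v' = v := by
    rw [hv] at hv'
    exact_mod_cast hv'.symm
  subst h4
  exact h2

theorem notDense {p : Ideal (MvPolynomial (Fin (N + 1)) ℂ)} {K : Type} [Field K] [Algebra ℂ K]
    {w : ℕ} {y : Fin (N + 1) → K} (hy : FunField p 1 K w y) (hw : 0 < w)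
    (hω : ∃ n : ℕ, 0 < n ∧ ∃ ω : (Fin w → Derivation ℂ K K) → K, Pluricanonical w n ω ∧ ω ≠ 0)
    {H : Type} [Group H] {P : H → ℙ ℂ (Fin (N + 1) → ℂ)} (hP : IteratedOn P)
    (hX : ∀ h, InV p (P h)) : NotDense p P := by
  by_contra hd
  obtain ⟨n, hn, ω, hω, hne⟩ := hω
  have htop : Algebra.trdeg ℂ (⊤ : IntermediateField ℂ K) = w := by
    rw [← hy.sub.dim]
    exact (IntermediateField.topEquiv (F := ℂ) (E := K)).trdeg_eq
  obtain ⟨⟨h1, -⟩, -⟩ := images hy hP hX hd ⊤ w htop hw
  exact hne (Pool.Agent.Y288.IL.t_PL N p K w y hy hw (covered_of_top h1) n hn ω hω)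

theorem iteratedOn_seq {P : ℤ → ℙ ℂ (Fin (N + 1) → ℂ)} (hP : IteratedSeq P) :
    IteratedOn fun m : Multiplicative ℤ => P m.toAdd := by
  obtain ⟨f, hf, hr⟩ := hP
  exact iteratedOn_int hf hr

theorem result (p : Ideal (MvPolynomial (Fin (N + 1)) ℂ)) (K : Type) [Field K] [Algebra ℂ K]
    (w : ℕ) (y : Fin (N + 1) → K) (hy : FunField p 1 K w y) :
    (∀ (H : Type) [Group H] (P : H → ℙ ℂ (Fin (N + 1) → ℂ)), IteratedOn P →
      (∀ h, InV p (P h)) → ¬ NotDense p P →
      ∀ (E : IntermediateField ℂ K) (v : ℕ), Algebra.trdeg ℂ E = v → 0 < v →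
        Uniruled E ∧ ¬ GeneralType ℂ E v) ∧
    ((∃ n : ℕ, 0 < n ∧ ∃ ω : (Fin w → Derivation ℂ K K) → K, Pluricanonical w n ω ∧ ω ≠ 0) →
      0 < w → (∀ (H : Type) [Group H] (P : H → ℙ ℂ (Fin (N + 1) → ℂ)), IteratedOn P →
        (∀ h, InV p (P h)) → NotDense p P) ∧
      ∀ P : ℤ → ℙ ℂ (Fin (N + 1) → ℂ), IteratedSeq P → (∀ n, InV p (P n)) → NotDense p P) ∧
    (GeneralType ℂ K w → ∃ n : ℕ, 0 < n ∧ ∃ ω : (Fin w → Derivation ℂ K K) → K,
      Pluricanonical w n ω ∧ ω ≠ 0) ∧
    ∀ (I : Ideal (MvPolynomial (Fin (N + 1)) ℂ)) (H : Type) [Group H]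
      (P : H → ℙ ℂ (Fin (N + 1) → ℂ)), IteratedOn P → (∀ h, InV I (P h)) →
      (Set.range P \ ZClosure (RationalPoints I)).Finite := by
  refine ⟨fun H _ P hP hX hd E v hv h0 => images hy hP hX hd E v hv h0, fun hω hw =>
    ⟨fun H _ P hP hX => notDense hy hw hω hP hX, fun P hP hX => ?_⟩, form_of_gt,
    fun I H _ P hP hI => finite_out_rat hP hI⟩
  obtain ⟨G, h1, h2, h3⟩ := notDense hy hw hω (iteratedOn_seq hP) fun m => hX m.toAdd
  exact ⟨G, h1, h2, fun n => h3 (Multiplicative.ofAdd n)⟩

end Pool.Agent.Results.MP_2ae8fe_ag.IteratedNotDense
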