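import Mathlib
import Pool.Agent.Y213.TM.Fin

/-!
# Points of closed subsets of `E ^ n` near the points of rank one

Let `E : y² = x³ + a x + b` be an elliptic curve over a number field `K`. A point of `E(L) ^ n` has
rank at most one if its coordinates generate a group of rank at most one (if `E` has no complex
multiplication, these are the points in the algebraic subgroups of `E ^ n` of dimension at most one;
if `E(L)` has rank at most one, these are all points of `E(L) ^ n`). We describe, uniformly over
all number fields `L` containing `K` and over all closed subsets `X` of `E ^ n` defined over `L`, the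
points of `X(L)` that are (or are close to) a point of rank one plus a point of small height: they lie
on translates `Q + M E ^ (n + 1)` contained in `X`, where `M` is bounded and the height of `Q` is
bounded linearly in terms of the height of `X`.
-/

set_option autoImplicit false

namespace Pool.Agent.Results.MP_2ae8fe_ag.PointsNearRankOne

open MvPolynomial WeierstrassCurve

/-- the curve `E : y² = x³ + a x + b` over `K` -/
def curve {K : Type} [Field K] (a b : K) : WeierstrassCurve K := ⟨0, 0, 0, a, b⟩

/-- the group `E(L)` for an extension field `L` of `K` -/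
abbrev Pt {K : Type} [Field K] (a b : K) (L : Type) [Field L] [Algebra K L] : Type :=
  ((curve a b).baseChange L).toAffine.Point

/-- homogeneous coordinates: `(x : y : 1)`, and `(0 : 1 : 0)` for the origin -/
def coords {L : Type} [Field L] {W : WeierstrassCurve L} : W.toAffine.Point → Fin 3 → L
  | .zero => ![0, 1, 0]
  | .some x y _ => ![x, y, 1]

/-- the absolute logarithmic height of a projective point -/
noncomputable def ht {L : Type} [Field L] [NumberField L] {ι : Type} (x : ι → L) : ℝ :=
  Height.logHeight x / Module.finrank ℚ L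

/-- all forms of `F` are multihomogeneous (of degrees `d i` in the coordinates of the `i`-th point),
of total degree at most `D`, with a vector of coefficients of height at most `h` -/
def Forms {L : Type} [Field L] [NumberField L] {n : ℕ} (D : ℕ) (h : ℝ)
    (F : Set (MvPolynomial (Fin n × Fin 3) L)) : Prop :=
  ∀ f ∈ F, (∃ d : Fin n → ℕ, (∀ m ∈ f.support, ∀ i, ∑ j, m (i, j) = d i) ∧ ∑ i, d i ≤ D) ∧
    ht (fun m : f.support => coeff m.1 f) ≤ h

/-- `P` lies on the closed subset `X` of `E ^ n` given by `F` -/
def OnX {K : Type} [Field K] {a b : K} {L : Type} [Field L] [Algebra K L] {n : ℕ}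
    (F : Set (MvPolynomial (Fin n × Fin 3) L)) (P : Fin n → Pt a b L) : Prop :=
  ∀ f ∈ F, eval (fun p => coords (P p.1) p.2) f = 0

/-- the translate `Q + M E ^ m` is contained in `X`: for all extension fields `L'` of `L` and all `z`
in `E(L') ^ m` the point with the coordinates `Q i + ∑ l, M l i • z l` lies on `X` -/
def CosetInX {K : Type} [Field K] {a b : K} {L : Type} [Field L] [DecidableEq L] [Algebra K L]
    {n m : ℕ} (F : Set (MvPolynomial (Fin n × Fin 3) L)) (Q : Fin n → Pt a b L)
    (M : Fin m → Fin n → ℤ) : Prop :=
  ∀ (L' : Type) [Field L'] [DecidableEq L'] [Algebra K L'] [Algebra L L'] [IsScalarTower K L L']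
    (z : Fin m → Pt a b L'), OnX (MvPolynomial.map (algebraMap L L') '' F)
      (fun i => Affine.Point.map (W' := curve a b) (IsScalarTower.toAlgHom K L L') (Q i) +
        ∑ l, M l i • z l)

/-- the coordinates of `A` generate a group of rank at most one (if `E` has no complex
multiplication, this means that `A` lies in an algebraic subgroup of dimension at most one) -/
def RankLeOne {K : Type} [Field K] {a b : K} {L : Type} [Field L] [DecidableEq L] [Algebra K L]
    {n : ℕ} (A : Fin n → Pt a b L) : Prop :=
  Module.rank ℤ (AddSubgroup.closure (Set.range A)) ≤ 1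

lemma tr_ex {K : Type} [Field K] (a b : K) (L : Type) [Field L] [DecidableEq L] [Algebra K L] :
    ∃ e : Pt a b L ≃+ Pool.Agent.TH942.SPt (algebraMap K L a) (algebraMap K L b),
      ∀ P, Pool.Agent.TH954.crd (e P) = coords P := by
  have key : (curve a b).baseChange L =
      Pool.Agent.TH942.sw (algebraMap K L a) (algebraMap K L b) := by
    ext <;> simp [curve, Pool.Agent.TH942.sw, WeierstrassCurve.baseChange, WeierstrassCurve.map]
  have gen : ∀ W : WeierstrassCurve L, (curve a b).baseChange L = W →
      ∃ e : Pt a b L ≃+ W.toAffine.Point, ∀ P, Pool.Agent.TH954.crd (e P) = coords P := by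
    intro W hW
    subst hW
    refine ⟨AddEquiv.refl _, fun P => ?_⟩
    match P with
    | .zero => rfl
    | .some x y h => rfl
  exact gen _ key

lemma coords_map {K : Type} [Field K] {a b : K} {L L' : Type} [Field L] [Field L']
    [DecidableEq L] [DecidableEq L'] [Algebra K L] [Algebra K L'] [Algebra L L']
    [IsScalarTower K L L'] (P : Pt a b L) (j : Fin 3) :
    coords (Affine.Point.map (W' := curve a b) (IsScalarTower.toAlgHom K L L') P) j =
      algebraMap L L' (coords P j) := by
  match P with
  | .zero =>
    have : Affine.Point.map (W' := curve a b) (IsScalarTower.toAlgHom K L L')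
      (Affine.Point.zero : Pt a b L) = Affine.Point.zero := rfl
    rw [this]
    fin_cases j <;> simp [coords]
  | .some x y h =>
    have : ∃ h', Affine.Point.map (W' := curve a b) (IsScalarTower.toAlgHom K L L')
      (Affine.Point.some x y h : Pt a b L) =
        Affine.Point.some (algebraMap L L' x) (algebraMap L L' y) h' := ⟨_, rfl⟩
    obtain ⟨h', e⟩ := this
    rw [e]
    fin_cases j <;> simp [coords]

lemma cosetInX_of {K : Type} [Field K] {a b : K} {L : Type} [Field L] [DecidableEq L]
    [Algebra K L] {n m : ℕ} (F : Set (MvPolynomial (Fin n × Fin 3) L)) (Q : Fin n → Pt a b L)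
    (M : Fin m → Fin n → ℤ)
    (e : Pt a b L ≃+ Pool.Agent.TH942.SPt (algebraMap K L a) (algebraMap K L b))
    (he : ∀ P, Pool.Agent.TH954.crd (e P) = coords P)
    (h : Pool.Agent.Y213.TM.InX F (fun i => e (Q i)) M) : CosetInX F Q M := by
  intro L' _ _ _ _ _ z
  obtain ⟨e', he'⟩ := tr_ex a b L'
  set ι : Pool.Agent.TH942.SPt (algebraMap K L a) (algebraMap K L b) →+
      Pool.Agent.TH942.SPt (algebraMap K L' a) (algebraMap K L' b) :=
    (e'.toAddMonoidHom.comp
      (Affine.Point.map (W' := curve a b) (IsScalarTower.toAlgHom K L L'))).comp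
      e.symm.toAddMonoidHom with hι
  have hιe : ∀ P, ι (e P) =
      e' (Affine.Point.map (W' := curve a b) (IsScalarTower.toAlgHom K L L') P) := by
    intro P
    change e' (Affine.Point.map (W' := curve a b) (IsScalarTower.toAlgHom K L L')
      (e.symm (e P))) = _
    rw [e.symm_apply_apply]
  have hιc : ∀ P j, Pool.Agent.TH954.crd (ι P) j =
      algebraMap L L' (Pool.Agent.TH954.crd P j) := by
    intro P j
    obtain ⟨P', rfl⟩ := e.surjective P
    rw [hιe, he', he, coords_map]
  have h1 := h L' ι hιc (fun l => e' (z l))
  rintro g ⟨f, hf, rfl⟩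
  have h2 := h1 f hf
  have h3 : ∀ i, ι (e (Q i)) + ∑ l, M l i • e' (z l) =
      e' (Affine.Point.map (W' := curve a b) (IsScalarTower.toAlgHom K L L') (Q i) +
        ∑ l, M l i • z l) := by
    intro i
    rw [hιe, map_add, map_sum]
    simp_rw [map_zsmul]
  simp_rw [h3, he'] at h2
  exact h2

/-- **Theorem.** Let `E : y² = x³ + a x + b` be an elliptic curve over a number field `K`, and let `n`
and `D` be natural numbers. There are `C`, `ε > 0` and `B` such that for all number fields `L`
containing `K`, all closed subsets `X` of `E ^ n` given by forms over `L` of degree at most `D` and of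
height at most `h`, and all `P` in `X(L)`:

(1) if the coordinates of `P - P₀` generate a group of rank at most one for some `P₀` in `E(L) ^ n`
of height at most `h`, then `P` lies in `Q + M E(L) ^ (n + 1)` for some integral matrix `M` bounded by
`B` and some `Q` in `E(L) ^ n` of height at most `C (1 + h)` such that `Q + M E ^ (n + 1)` is
contained in `X`;

(2) if the height of `P - A` is at most `h + ε` times the height of `P` for some `A` in `E(L) ^ n`
whose coordinates generate a group of rank at most one, then the height of `P` is at most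
`C (1 + h)` or `P + c E` is contained in `X` for some nonzero integral vector `c` bounded by `B`. -/
theorem result (K : Type) [Field K] [NumberField K] (a b : K)
    (hE : 4 * a ^ 3 + 27 * b ^ 2 ≠ 0) (n D : ℕ) :
    ∃ (C ε : ℝ) (B : ℕ), 0 < ε ∧
      ∀ (L : Type) [Field L] [NumberField L] [DecidableEq L] [Algebra K L] (h : ℝ)
        (F : Set (MvPolynomial (Fin n × Fin 3) L)), 0 ≤ h → Forms D h F →
      ∀ P : Fin n → Pt a b L, OnX F P →
        (∀ P₀ : Fin n → Pt a b L, (∀ i, ht (coords (P₀ i)) ≤ h) →
          RankLeOne (fun i => P i - P₀ i) →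
          ∃ (Q : Fin n → Pt a b L) (M : Fin (n + 1) → Fin n → ℤ) (z : Fin (n + 1) → Pt a b L),
            (∀ i, ht (coords (Q i)) ≤ C * (1 + h)) ∧ (∀ l i, |M l i| ≤ B) ∧
            (∀ i, P i = Q i + ∑ l, M l i • z l) ∧ CosetInX F Q M) ∧
        (∀ A : Fin n → Pt a b L, RankLeOne A →
          (∀ i, ht (coords (P i - A i)) ≤ h + ε * ∑ j, ht (coords (P j))) →
          (∀ i, ht (coords (P i)) ≤ C * (1 + h)) ∨
          ∃ c : Fin n → ℤ, c ≠ 0 ∧ (∀ i, |c i| ≤ B) ∧ CosetInX F P (fun _ : Fin 1 => c)) := by
  obtain ⟨C2, B2, hC2, hmain⟩ := Pool.Agent.Y213.TM.main hE n D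
  obtain ⟨C3, ε, B3, hε, hC3, hcone⟩ := Pool.Agent.Y213.TM.cone hE n D
  refine ⟨max C2 C3, ε, max B2 B3, hε, ?_⟩
  intro L _ _ _ _ h F hh hF P hP
  obtain ⟨e, he⟩ := tr_ex a b L
  set DL : ℝ := (Module.finrank ℚ L : ℝ) with hDL
  have hDL0 : 0 < DL := by
    have : 0 < Module.finrank ℚ L := Module.finrank_pos
    rw [hDL]
    exact_mod_cast this
  have hdeg : Pool.Agent.Y213.TM.Deg D F := by
    intro f hf
    obtain ⟨⟨d, hd1, hd2⟩, -⟩ := hF f hf
    exact ⟨d, hd1, hd2⟩
  have hfht : ∀ f ∈ F, Pool.Agent.Y213.TM.fht f ≤ h * DL := by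
    intro f hf
    have h1 := (hF f hf).2
    unfold ht at h1
    rwa [div_le_iff₀ hDL0] at h1
  have hPX : ∀ f ∈ F, eval (fun p => Pool.Agent.TH954.crd ((fun i => e (P i)) p.1) p.2) f = 0 := by
    intro f hf
    simp_rw [he]
    exact hP f hf
  have hrk : ∀ A : Fin n → Pt a b L, RankLeOne A →
      Module.rank ℤ (AddSubgroup.closure (Set.range (fun i => e (A i)))) ≤ 1 := by
    intro A hA
    have h1 : Set.range (fun i => e (A i)) = e '' Set.range A := by
      rw [← Set.range_comp]
      rfl
    have h2 : AddSubgroup.closure (Set.range (fun i => e (A i))) =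
        (AddSubgroup.closure (Set.range A)).map e.toAddMonoidHom := by
      rw [h1, AddMonoidHom.map_closure]
      rfl
    have h3 := ((AddSubgroup.closure (Set.range A)).equivMapOfInjective e.toAddMonoidHom
      e.injective).toIntLinearEquiv.rank_eq
    rw [h2, ← h3]
    exact hA
  refine ⟨?_, ?_⟩
  · intro P₀ hP₀ hr
    have hr' : Module.rank ℤ (AddSubgroup.closure (Set.range (fun i => e (P i) - e (P₀ i)))) ≤
        1 := by
      have e1 : (fun i => e (P i) - e (P₀ i)) = fun i => e ((fun i => P i - P₀ i) i) :=
        funext (fun i => (map_sub e _ _).symm)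
      rw [e1]
      exact hrk _ hr
    obtain ⟨Q, M, hM, hQ, ⟨z, hz⟩, hX⟩ := hmain L h hh F hdeg hfht (fun i => e (P i))
      (fun i => e (P₀ i)) (by
        intro i
        have h1 := hP₀ i
        unfold ht at h1
        rw [div_le_iff₀ hDL0] at h1
        rw [he]
        exact h1) hr' hPX
    refine ⟨fun i => e.symm (Q i), M, fun l => e.symm (z l), ?_, ?_, ?_, ?_⟩
    · intro i
      have h1 := hQ i
      unfold ht
      rw [div_le_iff₀ hDL0, ← he, e.apply_symm_apply]
      refine h1.trans ?_
      have h2 : 0 ≤ (1 + h) * DL := by positivity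
      have h3 := mul_le_mul_of_nonneg_right (le_max_left C2 C3) h2
      linarith
    · intro l i
      exact (hM l i).trans (by exact_mod_cast le_max_left _ _)
    · intro i
      apply e.injective
      rw [hz i, map_add, map_sum, e.apply_symm_apply]
      simp_rw [map_zsmul, e.apply_symm_apply]
    · apply cosetInX_of F _ M e he
      simp_rw [e.apply_symm_apply]
      exact hX
  · intro A hA hPA
    rcases hcone L h hh F hdeg hfht (fun i => e (P i)) (fun i => e (A i)) (hrk A hA) (by
      intro i
      have h1 := hPA i
      unfold ht at h1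
      have h2 : (∑ j, Height.logHeight (coords (P j)) / DL) * DL =
          ∑ j, Height.logHeight (coords (P j)) := by
        rw [← Finset.sum_div, div_mul_cancel₀ _ hDL0.ne']
      rw [div_le_iff₀ hDL0, add_mul, mul_assoc, h2] at h1
      change Height.logHeight (Pool.Agent.TH954.crd (e (P i) - e (A i))) ≤ h * DL +
        ε * ∑ j, Height.logHeight (Pool.Agent.TH954.crd (e (P j)))
      rw [← map_sub, he]
      simp_rw [he]
      exact h1) hPX with h1 | ⟨c, hc0, hc, hX⟩
    · left
      intro i
      have h2 := h1 i
      unfold ht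
      rw [div_le_iff₀ hDL0]
      simp_rw [he] at h2
      refine h2.trans ?_
      have h4 : 0 ≤ (1 + h) * DL := by positivity
      have h3 := mul_le_mul_of_nonneg_right (le_max_right C2 C3) h4
      linarith
    · right
      refine ⟨c, hc0, fun i => (hc i).trans (by exact_mod_cast le_max_right _ _), ?_⟩
      exact cosetInX_of F P _ e he hX

end Pool.Agent.Results.MP_2ae8fe_ag.PointsNearRankOne
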