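import Mathlib
import Pool.Agent.Y902.GN.Tor2

/-!
# Rational points on dilated subvarieties of a torus

For all `n`, `M`, `r`, `E` and `ε > 0` there are `R` and `δ > 0` such that for every `Y ≥ 1`, every
`d` with `R ≤ d ≤ Y ^ δ`, all exponent vectors `a 1, …, a M` in `ℤ ^ n` with entries of absolute value
at most `Y ^ δ` and all integers `u k i` (`k ≤ r`, `i ≤ M`) of absolute value at most `exp (Y ^ δ)` the
following holds for the closed subvarieties
`X s : ∑ i, u k i * s k i * x ^ (d * a i) = 0` (`k = 1, …, r`) of the torus of dimension `n` over `ℚ`,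
with integers `|s k i| ≤ Y ^ E`, and the points `x` such that the numerators and denominators of all
coordinates are at most `Y`.

* There are at most `Y ^ ε` translates of algebraic subgroups of the torus such that every point of
  every `X s` lies in one of them that is contained in `X s`.
* At most `Y ^ ε` points lie on some `X s`, but on no translate of a one-dimensional subtorus which
  is contained in `X s`.

So `X s` is the inverse image under the `d`-th power map of any closed subvariety of the torus
defined by `r` Laurent polynomials with at most `M` monomials.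

Method: a set of points that are not covered gives in an ultraproduct a large set with a prime ideal
of relations with coefficients of polynomial size; by the `p`-adic determinant method, with unbounded
exponents as coefficients, the relations between the terms are stable under the derivations of the
function field; the isotypic decomposition shows that in each minimal vanishing partial sum all
ratios of the monomials `x ^ (a i)` are constant on a large subset.
-/

set_option autoImplicit false

namespace Pool.Agent.Results.MP_2ae8fe_ag.TorusDilations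

/-- the value at `x` of the Laurent polynomial `∑ c i * x ^ (d * a i)` -/
def laurent {n M : ℕ} (c : Fin M → ℤ) (a : Fin M → Fin n → ℤ) (d : ℕ) (x : Fin n → ℚ) : ℚ :=
  ∑ i, (c i : ℚ) * ∏ j, x j ^ ((d : ℤ) * a i j)

/-- the rational points of the torus on which the Laurent polynomials vanish -/
def Var {n M r : ℕ} (c : Fin r → Fin M → ℤ) (a : Fin M → Fin n → ℤ) (d : ℕ) :
    Set (Fin n → ℚ) := {x | (∀ j, x j ≠ 0) ∧ ∀ k, laurent (c k) a d x = 0}

/-- the translate by `g` of the algebraic subgroup of the torus defined by the characters in `H` -/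
def Translate {n : ℕ} (g : Fin n → ℚ) (H : AddSubgroup (Fin n → ℤ)) : Set (Fin n → ℚ) :=
  {z | (∀ j, z j ≠ 0) ∧ ∀ χ ∈ H, ∏ j, z j ^ χ j = ∏ j, g j ^ χ j}

/-- the numerators and denominators of the nonzero coordinates of `x` are at most `Y` -/
def Bounded {n : ℕ} (Y : ℕ) (x : Fin n → ℚ) : Prop :=
  ∀ j, x j ≠ 0 ∧ |(x j).num| ≤ (Y : ℤ) ∧ (x j).den ≤ Y

/-- the points of `X s`, for some `s`, which do not lie on a translate of a one-dimensional subtorus
contained in `X s` -/
def OffSpecialSet {n M r : ℕ} (E d Y : ℕ) (u : Fin r → Fin M → ℤ) (a : Fin M → Fin n → ℤ) :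
    Set (Fin n → ℚ) :=
  {x | Bounded Y x ∧ ∃ s : Fin r → Fin M → ℤ, (∀ k i, |s k i| ≤ (Y : ℤ) ^ E) ∧
    x ∈ Var (fun k i => u k i * s k i) a d ∧
    ∀ w : Fin n → ℤ, w ≠ 0 → ∃ t : ℚ, t ≠ 0 ∧
      (fun j => x j * t ^ w j) ∉ Var (fun k i => u k i * s k i) a d}

/-- For all `n`, `M`, `r`, `E` and `ε > 0` there are `R` and `δ > 0` such that for all `Y ≥ 1`, all
`d` with `R ≤ d ≤ Y ^ δ`, all exponents `|a i j| ≤ Y ^ δ` and all integers `|u k i| ≤ exp (Y ^ δ)`:
all rational points of height at most `Y` of all `X s` lie in at most `Y ^ ε` translates of algebraic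
subgroups contained in `X s`, and at most `Y ^ ε` of them do not lie on a translate of a
one-dimensional subtorus contained in `X s`. -/
theorem result (n M r E : ℕ) (ε : ℝ) (hε : 0 < ε) : ∃ (R : ℕ) (δ : ℝ), 0 < δ ∧
    ∀ (Y d : ℕ) (a : Fin M → Fin n → ℤ) (u : Fin r → Fin M → ℤ), 1 ≤ Y → R ≤ d →
      (d : ℝ) ≤ (Y : ℝ) ^ δ → (∀ i j, ((|a i j| : ℤ) : ℝ) ≤ (Y : ℝ) ^ δ) →
      (∀ k i, ((|u k i| : ℤ) : ℝ) ≤ Real.exp ((Y : ℝ) ^ δ)) →
      (∃ L : Finset ((Fin n → ℚ) × AddSubgroup (Fin n → ℤ)), (L.card : ℝ) ≤ (Y : ℝ) ^ ε ∧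
        ∀ (x : Fin n → ℚ) (s : Fin r → Fin M → ℤ), Bounded Y x →
          (∀ k i, |s k i| ≤ (Y : ℤ) ^ E) → x ∈ Var (fun k i => u k i * s k i) a d →
          ∃ p ∈ L, x ∈ Translate p.1 p.2 ∧
            Translate p.1 p.2 ⊆ Var (fun k i => u k i * s k i) a d) ∧
      (OffSpecialSet E d Y u a).Finite ∧
        ((OffSpecialSet E d Y u a).ncard : ℝ) ≤ (Y : ℝ) ^ ε :=
  Pool.Agent.Y902.GN.tor n M r E ε hε

end Pool.Agent.Results.MP_2ae8fe_ag.TorusDilations
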